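import Pool.Agent.Work.MP_eb5f03_co.Interface

set_option autoImplicit false

namespace Pool.CubicTate

/-- The assembly of the blocks of the second layer. -/
theorem assembly2 (q_KOH : T_KOH) (q_KPT : T_KPT) (q_KOM : T_KOM) (q_TOR : T_TOR)
    (q_ORT : T_TOR → T_ORT) (q_MIN : T_MIN) (q_RNK : T_TOR → T_ORT → T_MIN → T_RNK)
    (q_INJ : T_KOH → T_KPT → T_KOM → T_ORT → T_RNK → T_INJ) (q_LAT : T_KOH → T_KOM → T_LAT)
    (q_HES : T_HES) (q_CAS : T_KPT → T_ORT → T_RNK → T_INJ → T_LAT → T_HES → T_CAS)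
    (q_BLD : T_KOH → T_KOM → T_CAS → T_BLD) : T_BLD :=
  q_BLD q_KOH q_KOM (q_CAS q_KPT (q_ORT q_TOR) (q_RNK q_TOR (q_ORT q_TOR) q_MIN)
    (q_INJ q_KOH q_KPT q_KOM (q_ORT q_TOR) (q_RNK q_TOR (q_ORT q_TOR) q_MIN))
    (q_LAT q_KOH q_KOM) q_HES)

end Pool.CubicTate
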