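import Pool.Agent.Work.MP_eb5f03_co.Interface

/-!
# Block CAS: the three cases for the equation of a class
-/

set_option autoImplicit false

namespace Pool.CubicTate

theorem CAS_norm (p : ℕ) [Fact p.Prime] : ‖((p : ℕ) : Om p)‖ < 1 := by
  have h : ((p : ℕ) : Om p) = algebraMap ℚ_[p] (PadicAlgCl p) ((p : ℕ) : ℚ_[p]) := by
    rw [map_natCast]
  rw [h]
  have h2 := PadicAlgCl.norm_extends p ((p : ℕ) : ℚ_[p])
  rw [h2]
  exact Padic.norm_p_lt_one

theorem CAS_submatrix {k : Type} [Field k] (c : k) (M : Matrix (Fin 20) (Fin 20) k)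
    (i j : Fin 20) :
    (c • M).submatrix i.succAbove j.succAbove = c • M.submatrix i.succAbove j.succAbove := rfl

theorem q_CAS (hKPT : T_KPT) (hORT : T_ORT) (hRNK : T_RNK) (hINJ : T_INJ) (hLAT : T_LAT)
    (hHES : T_HES) : T_CAS := by
  intro p _ S r A H3 H2 _ _ _ X f hE a
  have hp0 : (p : X.k) = 0 := by
    have h1 : X.red ((p : ℕ) : Ball p) = 0 := by
      refine (X.red_zero _).2 ?_
      have h2 : ((((p : ℕ) : Ball p)) : Om p) = ((p : ℕ) : Om p) := by push_cast; rfl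
      rw [h2]
      exact CAS_norm p
    rw [map_natCast] at h1
    exact h1
  obtain ⟨hinj, hprime⟩ := hINJ p X.k hp0 X.coh A X.h X.dR
  obtain ⟨x, hx⟩ := hLAT p X.k X.coh A X.h X.dR X.cr hinj a
  obtain ⟨hom, u, hu, hw, hw2⟩ := hE.crit (hKPT X.k X.coh) a x hx
  replace hw : ∀ i, X.red ⟨f a (Pi.single i 1), hE.le a _⟩ = u * X.dR.B x (X.dR.w i) := hw
  by_cases hall : ∀ i, X.dR.B x (X.dR.w i) = 0
  swap
  · left
    push Not at hall
    obtain ⟨i, hi⟩ := hall
    refine ⟨i, le_antisymm (hE.le a _) ?_⟩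
    by_contra hlt
    have h1 := (X.red_zero ⟨f a (Pi.single i 1), hE.le a _⟩).2 (not_le.1 hlt)
    rw [hw i] at h1
    exact (mul_ne_zero hu hi) h1
  right
  obtain ⟨hw3, hw4⟩ := hw2 hall
  replace hw3 : ∀ i, 2 * X.red ⟨f a (Pi.single i 2), hE.le a _⟩ =
    u * X.dR.B x (X.dR.w2 i i) := hw3
  replace hw4 : ∀ i j, i ≠ j → X.red ⟨f a (Pi.single i 1 + Pi.single j 1), hE.le a _⟩ =
    u * X.dR.B x (X.dR.w2 i j) := hw4
  obtain ⟨α, β, hαβ⟩ := hORT p X.k X.coh A X.h X.dR x hom hall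
  have hBw2 : ∀ i j, X.dR.B x (X.dR.w2 i j) = -(α * X.dR.B (X.dR.w i) (X.dR.w j)) := by
    intro i j
    rw [hαβ, map_add, map_smul, map_smul, LinearMap.add_apply, LinearMap.smul_apply,
      LinearMap.smul_apply, X.dR.th_w2, smul_zero, add_zero, smul_eq_mul]
    linear_combination α * X.dR.w_w i j
  by_cases hα : α = 0
  · right
    have h1 : X.dR.c1 a = β • X.dR.c1 X.h := by
      rw [← hx, hαβ, hα, zero_smul, zero_add, map_smul, X.dR.c1_h]
    exact hprime a β h1
  · left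
    refine ⟨fun i => ?_, ?_⟩
    · have h1 := hw i
      rw [hall i, mul_zero] at h1
      exact (X.red_zero _).1 h1
    · obtain ⟨i, j, hdet⟩ := hRNK p X.k X.coh A X.h X.dR
      refine ⟨i, j, ?_⟩
      refine hHES p X.k X.red X.red_zero (f a) (hE.le a)
        ((-(u * α)) • Matrix.of fun i j => X.dR.B (X.dR.w i) (X.dR.w j)) ?_ ?_ i j ?_
      · intro i
        rw [hw3 i, hBw2, Matrix.smul_apply, Matrix.of_apply, smul_eq_mul]
        ring
      · intro i j hij
        rw [hw4 i j hij, hBw2, Matrix.smul_apply, Matrix.of_apply, smul_eq_mul]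
        ring
      · rw [CAS_submatrix, Matrix.det_smul]
        exact mul_ne_zero (pow_ne_zero _ (neg_ne_zero.2 (mul_ne_zero hu hα))) hdet

end Pool.CubicTate
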