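import Pool.Agent.Work.MP_eb5f03_co.Interface

/-! Block HES (helper17). -/

set_option autoImplicit false

namespace Pool.CubicTate

theorem q_HES : T_HES := by
  classical
  intro p _ k _ red hred g hg N hd ho i j hdet
  obtain ⟨H', hH'⟩ : ∃ H' : Matrix (Fin 20) (Fin 20) (Ball p), H' = Matrix.of fun i j =>
      if i = j then 2 * (⟨g (Pi.single i 2), hg _⟩ : Ball p)
      else ⟨g (Pi.single i 1 + Pi.single j 1), hg _⟩ := ⟨_, rfl⟩
  have h1 : red.mapMatrix (H'.submatrix i.succAbove j.succAbove)
      = N.submatrix i.succAbove j.succAbove := by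
    ext a b
    rw [RingHom.mapMatrix_apply, Matrix.map_apply, Matrix.submatrix_apply, Matrix.submatrix_apply,
      hH', Matrix.of_apply]
    split_ifs with h
    · rw [← h, map_mul, map_ofNat]
      exact hd _
    · exact ho _ _ h
  have h2 : (Ball p).subtype.mapMatrix (H'.submatrix i.succAbove j.succAbove)
      = (hess p g).submatrix i.succAbove j.succAbove := by
    ext a b
    rw [RingHom.mapMatrix_apply, Matrix.map_apply, Matrix.submatrix_apply, Matrix.submatrix_apply,
      hH', Matrix.of_apply, hess, Matrix.of_apply]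
    split_ifs with h
    · rw [map_mul, map_ofNat]
      rfl
    · rfl
  obtain ⟨d, hdd⟩ : ∃ d : Ball p, d = (H'.submatrix i.succAbove j.succAbove).det := ⟨_, rfl⟩
  have h3 : red d ≠ 0 := by
    rw [hdd, RingHom.map_det, h1]
    exact hdet
  have h4 : minor p g i j = (d : Om p) := by
    rw [minor, ← h2, ← RingHom.map_det, ← hdd]
    rfl
  have h5 : ‖(d : Om p)‖ ≤ 1 := d.2
  rw [h4]
  by_contra hcon
  exact h3 ((hred d).2 (lt_of_le_of_ne h5 hcon))

end Pool.CubicTate
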