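import Pool.Agent.Work.MP_eb5f03_co.Interface

/-!
# Block INJ: `Φ` is injective on de Rham cohomology
-/

set_option autoImplicit false

namespace Pool.CubicTate

theorem INJ_entry {k : Type} [Field k] (N : Matrix (Fin 20) (Fin 20) k) (i j : Fin 20)
    (h : (N.submatrix i.succAbove j.succAbove).det ≠ 0) : ∃ a b, N a b ≠ 0 := by
  by_contra hc
  push Not at hc
  apply h
  have h1 : N.submatrix i.succAbove j.succAbove = 0 := by
    ext a b
    exact hc _ _
  rw [h1]
  exact Matrix.det_zero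

/-- the Chern class of the Pluecker line bundle in de Rham cohomology is not zero -/
theorem INJ_h (hKOH : T_KOH) (hKOM : T_KOM) {p : ℕ} {k : Type} [Field k] (hp : (p : k) = 0)
    {c : Coherent k} {A : Type} [AddCommGroup A] {h : A} (D : DeRham p c A h) :
    D.c1 h ≠ 0 := by
  intro h0
  obtain ⟨b, hb⟩ := D.pic (hKOH k c).1 (hKOM k c).1 h h0
  have h1 : D.cH h = 0 := by
    have h2 : D.cH h = D.cH ((p : ℤ) • b) := congrArg D.cH hb
    rw [h2, map_zsmul, natCast_zsmul, ← Nat.cast_smul_eq_nsmul k, hp, zero_smul]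
  exact (hKOM k c).2 (by rw [← D.cH_h, h1])

theorem INJ_inj (hKOH : T_KOH) (hKPT : T_KPT) (hKOM : T_KOM) (hORT : T_ORT) (hRNK : T_RNK)
    {p : ℕ} {k : Type} [Field k] (hp : (p : k) = 0)
    {c : Coherent k} {A : Type} [AddCommGroup A] {h : A} (D : DeRham p c A h) (x : D.V)
    (hx : D.Phi x = 0) : x = 0 := by
  obtain ⟨h1, h2, h3⟩ := D.transport (hKPT k c).1 x hx
  obtain ⟨a, b, hab⟩ := hORT p k c A h D x h1 h2
  obtain ⟨i, j, hij⟩ := hRNK p k c A h D
  obtain ⟨i', j', h4⟩ := INJ_entry _ i j hij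
  rw [Matrix.of_apply] at h4
  have h5 : a = 0 := by
    have h6 := h3 i' j'
    rw [hab, map_add, map_smul, map_smul, LinearMap.add_apply, LinearMap.smul_apply,
      LinearMap.smul_apply, D.th_w2, smul_zero, add_zero] at h6
    have h7 : D.B D.om (D.w2 i' j') = - D.B (D.w i') (D.w j') :=
      eq_neg_of_add_eq_zero_right (D.w_w i' j')
    rw [h7, smul_eq_mul] at h6
    rcases mul_eq_zero.1 h6 with h8 | h8
    · exact h8
    · exact absurd (neg_eq_zero.1 h8) h4
  rw [h5, zero_smul, zero_add] at hab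
  rw [hab, map_smul, ← D.c1_h] at hx
  rcases smul_eq_zero.1 hx with h8 | h8
  · rw [hab, h8, zero_smul]
  · exact absurd h8 (INJ_h hKOH hKOM hp D)

theorem q_INJ (hKOH : T_KOH) (hKPT : T_KPT) (hKOM : T_KOM) (hORT : T_ORT) (hRNK : T_RNK) :
    T_INJ := by
  intro p _ k _ hp c A _ h D
  refine ⟨?_, ?_⟩
  · intro x y hxy
    have h1 : D.Phi (x - y) = 0 := by rw [map_sub, hxy, sub_self]
    exact sub_eq_zero.1 (INJ_inj hKOH hKPT hKOM hORT hRNK hp D _ h1)
  · intro a x hax
    have hH : D.cH h ≠ 0 := by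
      rw [D.cH_h]
      exact (hKOM k c).2
    have h1 : x ^ p = x := D.cartier (hKOH k c).1 (hKOM k c).1 a h x hax hH
    have : CharP k p := (CharP.charP_iff_prime_eq_zero (Fact.out : p.Prime)).2 hp
    obtain ⟨m, hm⟩ := (mem_bot_iff_intCast p k).1 ((Subfield.mem_bot_iff_pow_eq_self k p).2 h1)
    have h2 : D.c1 (a - m • h) = 0 := by
      rw [map_sub, map_zsmul, hax, ← hm, Int.cast_smul_eq_zsmul, sub_self]
    obtain ⟨b, hb⟩ := D.pic (hKOH k c).1 (hKOM k c).1 _ h2
    exact ⟨b, m, by rw [← hb]; abel⟩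

end Pool.CubicTate
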