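import Pool.Agent.Work.MP_eb5f03_co.Interface

/-!
# Block KOH: coherent cohomology of the structure sheaf of the variety of lines
-/

set_option autoImplicit false

namespace Pool.CubicTate

theorem KOH_van {k : Type} [Field k] {M N : ModuleCat.{0} k} (h : Van M)
    (e : Nonempty (N ≃ₗ[k] M)) : Van N := by
  obtain ⟨e⟩ := e
  intro x
  exact e.injective (by rw [h (e x), map_zero])

theorem KOH_C {k : Type} [Field k] {A B C : ℕ → ModuleCat.{0} k} (S : Les k A B C) (i : ℕ)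
    (hB : Van (B i)) (hA : Van (A (i + 1))) : Van (C i) := by
  intro c
  obtain ⟨b, rfl⟩ := ((S.gd i) c).1 (hA _)
  rw [hB b, map_zero]

theorem KOH_inj {k : Type} [Field k] {A B C : ℕ → ModuleCat.{0} k} (S : Les k A B C) (i : ℕ)
    (hB : Van (B i)) : Function.Injective (S.d i) := by
  rw [injective_iff_map_eq_zero]
  intro c hc
  obtain ⟨b, rfl⟩ := ((S.gd i) c).1 hc
  rw [hB b, map_zero]

theorem KOH_surj {k : Type} [Field k] {A B C : ℕ → ModuleCat.{0} k} (S : Les k A B C) (i : ℕ)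
    (hB : Van (B (i + 1))) : Function.Surjective (S.d i) := by
  intro a
  exact ((S.df i) a).1 (hB _)

theorem KOH_rank {k : Type} [Field k] {A B C : ℕ → ModuleCat.{0} k} (S : Les k A B C) (i : ℕ)
    (hB : Van (B i)) (hB' : Van (B (i + 1))) :
    Module.finrank k (C i) = Module.finrank k (A (i + 1)) :=
  (LinearEquiv.ofBijective (S.d i) ⟨KOH_inj S i hB, KOH_surj S i hB'⟩).finrank_eq

theorem q_KOH : T_KOH := by
  intro k _ c
  have h0 : ∀ i, 0 < i → i < 4 → Van (c.HD 0 0 i) := fun i h1 h2 =>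
    KOH_C (c.seqD (-2) (-3) 0 0 (by norm_num) (by norm_num)) i
      (KOH_van (c.OX_mid 0 i h1 h2) (c.HT_zero 0 i)) (c.HT_mid _ _ _ (by norm_num) (by norm_num))
  have h3 : ∀ i, Van (c.HT (-3) (-3) i) := fun i => c.HT_mid _ _ _ (by norm_num) (by norm_num)
  have h2 : Van (c.HD (-3) (-3) 2) :=
    KOH_C (c.seqD (-5) (-6) (-3) (-3) (by norm_num) (by norm_num)) 2 (h3 2)
      (KOH_van c.Om3_zero (c.HT_five 0))
  have hr : Module.finrank k (c.HD (-3) (-3) 3) = 1 := by
    rw [KOH_rank (c.seqD (-5) (-6) (-3) (-3) (by norm_num) (by norm_num)) 3 (h3 3) (h3 4)]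
    obtain ⟨e⟩ := c.HT_five 1
    exact e.finrank_eq.trans c.Om3_one
  refine ⟨?_, ?_⟩
  · refine KOH_van ?_ (c.pull 1)
    exact KOH_C (c.seqP (-3) (-3) 0 0 (by norm_num) (by norm_num)) 1
      (h0 1 (by norm_num) (by norm_num)) h2
  · obtain ⟨e⟩ := c.pull 2
    rw [e.finrank_eq, KOH_rank (c.seqP (-3) (-3) 0 0 (by norm_num) (by norm_num)) 2
      (h0 2 (by norm_num) (by norm_num)) (h0 3 (by norm_num) (by norm_num))]
    exact hr

end Pool.CubicTate
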