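import Pool.Agent.Work.MP_eb5f03_co.Interface

/-!
# Block KOM: one-forms on the variety of lines and the class of the Pluecker line bundle
-/

set_option autoImplicit false

namespace Pool.CubicTate

theorem KOM_van {k : Type} [Field k] {M N : ModuleCat.{0} k} (h : Van M)
    (e : Nonempty (N ≃ₗ[k] M)) : Van N := by
  obtain ⟨e⟩ := e
  intro x
  exact e.injective (by rw [h (e x), map_zero])

theorem KOM_C {k : Type} [Field k] {A B C : ℕ → ModuleCat.{0} k} (S : Les k A B C) (i : ℕ)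
    (hB : Van (B i)) (hA : Van (A (i + 1))) : Van (C i) := by
  intro c
  obtain ⟨b, rfl⟩ := ((S.gd i) c).1 (hA _)
  rw [hB b, map_zero]

theorem KOM_N {k : Type} [Field k] (c : Coherent k) : Van (c.NY 1) := by
  have h1 : Van (c.HD 1 (-3) 2) :=
    KOM_C (c.seqD (-1) (-6) 1 (-3) (by norm_num) (by norm_num)) 2
      (KOM_van c.Om1_neg ⟨c.HT_one (-3) 2⟩) (c.HT_mid _ _ _ (by norm_num) (by norm_num))
  have h2 : Van (c.HD (-2) (-6) 3) :=
    KOM_C (c.seqD (-4) (-9) (-2) (-6) (by norm_num) (by norm_num)) 3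
      (c.HT_mid _ _ _ (by norm_num) (by norm_num))
      (KOM_van (c.OX_mid _ 1 (by norm_num) (by norm_num)) (c.HT_four (-9) 1))
  exact KOM_van
    (KOM_C (c.seqP (-2) (-6) 1 (-3) (by norm_num) (by norm_num)) 2 h1 h2) c.conN

theorem KOM_U {k : Type} [Field k] (c : Coherent k) : Van c.UY := by
  have h1 : Van (c.HD (-1) (-1) 0) :=
    KOM_C (c.seqD (-3) (-4) (-1) (-1) (by norm_num) (by norm_num)) 0
      (c.HT_mid _ _ _ (by norm_num) (by norm_num)) (c.HT_mid _ _ _ (by norm_num) (by norm_num))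
  have h2 : Van (c.HD (-4) (-4) 1) :=
    KOM_C (c.seqD (-6) (-7) (-4) (-4) (by norm_num) (by norm_num)) 1
      (c.HT_low _ _ _ (by norm_num) (by norm_num)) (c.HT_low _ _ _ (by norm_num) (by norm_num))
  exact KOM_van
    (KOM_C (c.seqP (-4) (-4) (-1) (-1) (by norm_num) (by norm_num)) 0 h1 h2) c.UU

theorem q_KOM : T_KOM := by
  intro k _ c
  have hG : Van (c.G1 0) := by
    obtain ⟨j, hj⟩ := c.G1_sub
    intro x
    apply hj
    rw [map_zero]
    funext i
    exact KOM_U c _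
  refine ⟨KOM_C c.conY 0 hG (KOM_N c), ?_⟩
  intro h
  obtain ⟨z, hz⟩ := ((c.conY.fg 1) c.taut).1 h
  have h0 : c.taut = 0 := by
    rw [← hz, KOM_N c z, map_zero]
  obtain ⟨s, hs⟩ := c.taut_split h0
  exact hs (KOM_U c s)

end Pool.CubicTate
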