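import Pool.Agent.Work.MP_eb5f03_co.Interface

set_option autoImplicit false

namespace Pool.CubicTate

theorem KPT_bij {k : Type} [Field k] {A B C : ℕ → ModuleCat.{0} k} (L : Les k A B C) (i : ℕ)
    (h1 : Van (A i)) (h2 : Van (A (i + 1))) : Function.Bijective (L.g i) := by
  constructor
  · intro x y hxy
    have hz : L.g i (x - y) = 0 := by rw [map_sub, hxy, sub_self]
    obtain ⟨a, ha⟩ := (L.fg i (x - y)).1 hz
    rw [h1 a, map_zero] at ha
    exact sub_eq_zero.1 ha.symm
  · intro c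
    exact (L.gd i c).1 (h2 _)

theorem KPT_van {k : Type} [Field k] {A B C : ℕ → ModuleCat.{0} k} (L : Les k A B C) (i : ℕ)
    (h1 : Van (B i)) (h2 : Van (A (i + 1))) : Van (C i) := by
  intro c
  obtain ⟨b, hb⟩ := (L.gd i c).1 (h2 _)
  rw [← hb, h1 b, map_zero]

theorem KPT_equiv {k : Type} [Field k] {M N : ModuleCat.{0} k} (e : Nonempty (M ≃ₗ[k] N))
    (h : Van N) : Van M := by
  obtain ⟨e⟩ := e
  intro x
  exact e.injective (by rw [h (e x), map_zero])

theorem KPT_HD {k : Type} [Field k] (c : Coherent k) (i : ℕ) (h1 : 0 < i) (h2 : i < 4) :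
    Van (c.HD (-2) (-3) (i + 2)) := by
  have L := c.seqD (-4) (-6) (-2) (-3) (by norm_num) (by norm_num)
  have hB : Van (c.HT (-2) (-3) (i + 2)) := c.HT_mid _ _ _ (by norm_num) (by norm_num)
  have hA : Van (c.HT (-4) (-6) (i + 2 + 1)) :=
    KPT_equiv (c.HT_four (-6) i) (c.OX_mid _ _ h1 h2)
  exact KPT_van L (i + 2) hB hA

theorem q_KPT : T_KPT := by
  intro k _ c
  have h1 : Function.Bijective
      ((c.seqD (-1) (-3) 1 0 (by norm_num) (by norm_num)).g 3) :=
    KPT_bij _ 3 (c.HT_mid _ _ _ (by norm_num) (by norm_num))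
      (c.HT_mid _ _ _ (by norm_num) (by norm_num))
  have h2 : Function.Bijective
      ((c.seqP (-2) (-3) 1 0 (by norm_num) (by norm_num)).g 3) :=
    KPT_bij _ 3 (KPT_HD c 1 (by norm_num) (by norm_num))
      (KPT_HD c 2 (by norm_num) (by norm_num))
  unfold Coherent.phiTop
  simp only [LinearMap.coe_comp, LinearEquiv.coe_coe]
  exact c.push.bijective.comp (h2.comp (h1.comp (c.HT_one 0 3).symm.bijective))

end Pool.CubicTate
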