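import Pool.Agent.Work.MP_eb5f03_co.Interface

/-! Block LAT: every Chern class is in the image of the correspondence (helper92). -/

set_option autoImplicit false

namespace Pool.CubicTate

theorem q_LAT (hKOH : T_KOH) (hKOM : T_KOM) : T_LAT := by
  intro p k _ c A _ h D E hPhi a
  have hOY : Van (c.OY 1) := (hKOH k c).1
  have hY1 : Van (c.Y1 0) := (hKOM k c).1
  have key : ∀ (n : ℕ) (x : E.L4), E.PhiL x = (p ^ n) • E.c1L a →
      ∃ x' : E.L4, E.PhiL x' = E.c1L a := by
    intro n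
    induction n with
    | zero =>
      intro x hx
      exact ⟨x, by rw [hx, pow_zero, one_smul]⟩
    | succ n ih =>
      intro x hx
      have e1 : E.PhiL x = p • ((p ^ n) • E.c1L a) := by
        rw [hx, ← mul_smul, pow_succ']
      have e2 : D.Phi (E.r4 x) = 0 := by
        rw [← E.PhiL_eq, e1, E.r2_mul]
      have e3 : E.r4 x = 0 := hPhi (by rw [e2, map_zero])
      obtain ⟨x₁, rfl⟩ := E.r4_ker x e3
      refine ih x₁ ?_
      have e4 : p • (E.PhiL x₁ - (p ^ n) • E.c1L a) = 0 := by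
        rw [smul_sub, ← map_nsmul, e1, sub_self]
      exact sub_eq_zero.1 (E.L2_tors hOY hY1 _ e4)
  obtain ⟨n, x, hx⟩ := E.PhiL_onto (E.c1L a)
  obtain ⟨x', hx'⟩ := key n x hx
  exact ⟨E.r4 x', by rw [← E.PhiL_eq, hx', E.c1L_eq]⟩

end Pool.CubicTate
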