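import Pool.Agent.Work.MP_eb5f03_co.Interface

set_option autoImplicit false

namespace Pool.CubicTate

theorem q_MIN : T_MIN := by
  intro k _ M hM
  by_contra hcon
  push Not at hcon
  by_cases h0 : M.det = 0
  · obtain ⟨s, hs, hMs⟩ := Matrix.exists_mulVec_eq_zero_iff.2 h0
    obtain ⟨v, hv, hvM⟩ := Matrix.exists_vecMul_eq_zero_iff.2 h0
    obtain ⟨j, hj⟩ := Function.ne_iff.1 hs
    obtain ⟨i, hi⟩ := Function.ne_iff.1 hv
    obtain ⟨u, hu, hMu⟩ := Matrix.exists_mulVec_eq_zero_iff.2 (hcon i j)
    let u' : Fin 20 → k := Fin.insertNth (α := fun _ => k) j 0 u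
    have hu'j : u' j = 0 := Fin.insertNth_apply_same (α := fun _ => k) j 0 u
    have hu's : ∀ a, u' (j.succAbove a) = u a := fun a =>
      Fin.insertNth_apply_succAbove (α := fun _ => k) j 0 u a
    have hl : ∀ l, l ≠ i → M.mulVec u' l = 0 := by
      intro l hl
      obtain ⟨l', rfl⟩ := Fin.exists_succAbove_eq hl
      have h1 := congrFun hMu l'
      rw [Matrix.mulVec, dotProduct, Fin.sum_univ_succAbove _ j, hu'j, mul_zero, zero_add]
      simp only [hu's]
      exact h1
    have hi0 : M.mulVec u' i = 0 := by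
      have h1 : v ⬝ᵥ M.mulVec u' = 0 := by
        rw [Matrix.dotProduct_mulVec, hvM, zero_dotProduct]
      have h2 : v ⬝ᵥ M.mulVec u' = v i * M.mulVec u' i := by
        rw [dotProduct]
        refine Finset.sum_eq_single i ?_ ?_
        · intro l _ hli
          rw [hl l hli, mul_zero]
        · intro h
          exact absurd (Finset.mem_univ i) h
      rw [h2] at h1
      exact (mul_eq_zero.1 h1).resolve_left hi
    have hMu' : M.mulVec u' = 0 := by
      funext l
      by_cases h : l = i
      · rw [h]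
        exact hi0
      · exact hl l h
    obtain ⟨b, b', hb, hbb⟩ := hM s u' hMs hMu'
    have h3 := congrFun hbb j
    rw [Pi.smul_apply, Pi.smul_apply, hu'j, smul_zero, smul_eq_mul] at h3
    have hb' : b' = 0 := (mul_eq_zero.1 h3).resolve_right hj
    have hb0 : b ≠ 0 := hb.resolve_right fun h => h hb'
    rw [hb', zero_smul] at hbb
    have hu'0 : u' = 0 := (smul_eq_zero.1 hbb.symm).resolve_left hb0
    apply hu
    funext a
    rw [← hu's a, hu'0]
    rfl
  · apply h0
    rw [Matrix.det_succ_row_zero]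
    refine Finset.sum_eq_zero fun j _ => ?_
    have h1 := hcon 0 j
    rw [Fin.succAbove_zero] at h1
    rw [h1, mul_zero]

end Pool.CubicTate
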