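import Pool.Agent.Work.MP_eb5f03_co.Interface

set_option autoImplicit false

namespace Pool.CubicTate

theorem q_ORT (h1 : T_TOR) : T_ORT := by
  intro p k _ c A _ h D x hx hw
  have key : D.B x ∈ Submodule.span k (Set.range ![D.B D.om, D.B D.th]) := by
    apply mem_span_of_iInf_ker_le_ker
    intro y hy
    rw [Submodule.mem_iInf] at hy
    have hy0 : D.B D.om y = 0 := by simpa using hy 0
    have hy1 : D.B D.th y = 0 := by simpa using hy 1
    obtain ⟨a, s, hs⟩ := (h1 p k c A h D).2 y hy0 hy1
    rw [LinearMap.mem_ker, hs, map_add, map_smul, hx, smul_zero, zero_add, map_sum]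
    apply Finset.sum_eq_zero
    intro i _
    rw [map_smul, hw i, smul_zero]
  rw [Submodule.mem_span_range_iff_exists_fun] at key
  obtain ⟨t, ht⟩ := key
  refine ⟨t 0, t 1, ?_⟩
  have hz : x - (t 0 • D.om + t 1 • D.th) = 0 := by
    apply D.B_nondeg
    intro y
    rw [map_sub, map_add, map_smul, map_smul, ← ht]
    simp [Fin.sum_univ_two]
  exact sub_eq_zero.1 hz

end Pool.CubicTate
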