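import Pool.Agent.Work.MP_eb5f03_co.Interface

/-!
# Block RNK: the matrix of the products of the `w i` has rank at least nineteen
-/

set_option autoImplicit false

namespace Pool.CubicTate

theorem RNK_aux (h2 : T_ORT) (p : ℕ) (k : Type) [Field k] (c : Coherent k) (A : Type)
    [AddCommGroup A] (h : A) (D : DeRham p c A h) (s : Fin 20 → k)
    (hs : (Matrix.of fun i j => D.B (D.w i) (D.w j)).mulVec s = 0) :
    ∃ a b : k, ∑ j, s j • D.w j = a • D.om + b • D.th := by
  apply h2 p k c A h D
  · rw [map_sum, LinearMap.sum_apply]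
    apply Finset.sum_eq_zero
    intro j _
    rw [map_smul, LinearMap.smul_apply, D.B_symm, D.om_w, smul_zero]
  · intro i
    have h1 := congrFun hs i
    rw [map_sum, LinearMap.sum_apply]
    simp only [Matrix.mulVec, dotProduct, Matrix.of_apply, Pi.zero_apply] at h1
    rw [← h1]
    refine Finset.sum_congr rfl fun j _ => ?_
    rw [map_smul, LinearMap.smul_apply, D.B_symm, smul_eq_mul, mul_comm]

theorem q_RNK (h1 : T_TOR) (h2 : T_ORT) (h3 : T_MIN) : T_RNK := by
  intro p k _ c A _ h D
  apply h3 k (Matrix.of fun i j => D.B (D.w i) (D.w j))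
  intro s u hs hu
  obtain ⟨a, b, hab⟩ := RNK_aux h2 p k c A h D s hs
  obtain ⟨a', b', hab'⟩ := RNK_aux h2 p k c A h D u hu
  obtain ⟨hT, -⟩ := h1 p k c A h D
  by_cases hb : b = 0 ∧ b' = 0
  · obtain ⟨rfl, rfl⟩ := hb
    rw [zero_smul, add_zero] at hab
    have hs0 := hT s a hab
    exact ⟨0, 1, Or.inr one_ne_zero, by rw [hs0]; simp⟩
  · refine ⟨b, b', ?_, ?_⟩
    · by_contra hcon
      push Not at hcon
      exact hb hcon
    · have hz := hT (b' • s - b • u) (b' * a - b * a') ?_
      · exact sub_eq_zero.mp hz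
      · have e : ∑ i, (b' • s - b • u) i • D.w i =
            b' • ∑ j, s j • D.w j - b • ∑ j, u j • D.w j := by
          rw [Finset.smul_sum, Finset.smul_sum, ← Finset.sum_sub_distrib]
          refine Finset.sum_congr rfl fun j _ => ?_
          simp only [Pi.sub_apply, Pi.smul_apply, smul_eq_mul, sub_smul, mul_smul]
        rw [e, hab, hab']
        simp only [smul_add, smul_smul, sub_smul]
        rw [mul_comm b b']
        abel

end Pool.CubicTate
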