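import Pool.Agent.Work.MP_eb5f03_co.Interface

/-!
# Block TOR: the infinitesimal Torelli theorem
-/

set_option autoImplicit false

namespace Pool.CubicTate

theorem q_TOR : T_TOR := by
  classical
  intro p k _ c A _ h D
  have hsum : ∀ s : Fin 20 → k, ∑ i, s i • (Pi.single i 1 : Fin 20 → k) = s := by
    intro s
    funext j
    rw [Finset.sum_apply, Finset.sum_eq_single j]
    · simp
    · intro b _ hb
      rw [Pi.smul_apply, Pi.single_eq_of_ne (Ne.symm hb), smul_zero]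
    · intro hj
      exact absurd (Finset.mem_univ j) hj
  have hY : ∀ s : Fin 20 → k,
      ((∑ i, s i • (⟨D.w i, D.om_w i⟩ : LinearMap.ker (D.B D.om)) : LinearMap.ker (D.B D.om)) : D.V) =
        ∑ i, s i • D.w i := by
    intro s
    rw [AddSubmonoidClass.coe_finsetSum]
    rfl
  have hgr : ∀ s : Fin 20 → k,
      D.gr (∑ i, s i • (⟨D.w i, D.om_w i⟩ : LinearMap.ker (D.B D.om))) = c.conX.d 1 (D.ks s) := by
    intro s
    rw [map_sum]
    conv_rhs => rw [← hsum s]
    rw [map_sum, map_sum]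
    refine Finset.sum_congr rfl fun i _ => ?_
    rw [map_smul, map_smul, map_smul, D.gr_w i]
  constructor
  · intro s a hs
    have e1 : (∑ i, s i • (⟨D.w i, D.om_w i⟩ : LinearMap.ker (D.B D.om)) :
        LinearMap.ker (D.B D.om)) = a • ⟨D.om, D.om_om⟩ := by
      apply Subtype.ext
      rw [hY s, hs]
      rfl
    have e2 : c.conX.d 1 (D.ks s) = 0 := by
      rw [← hgr s, e1, map_smul, D.gr_om, smul_zero]
    obtain ⟨z, hz⟩ := (c.conX.gd 1 (D.ks s)).1 e2
    rw [c.EX_one z, map_zero] at hz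
    exact (LinearEquiv.map_eq_zero_iff D.ks).1 hz.symm
  · intro x hx hth
    set X : LinearMap.ker (D.B D.om) := ⟨x, hx⟩ with hX
    have e1 : c.conX.f 2 (D.gr X) = 0 := by
      apply (LinearEquiv.map_eq_zero_iff D.gysin).1
      rw [D.gysin_eq X]
      exact hth
    obtain ⟨τ, hτ⟩ := (c.conX.df 1 (D.gr X)).1 e1
    have e2 : D.gr (X - ∑ i, (D.ks.symm τ) i • (⟨D.w i, D.om_w i⟩ : LinearMap.ker (D.B D.om))) = 0 := by
      rw [map_sub, hgr, LinearEquiv.apply_symm_apply, hτ, sub_self]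
    obtain ⟨a, ha⟩ := D.gr_ker _ e2
    refine ⟨a, D.ks.symm τ, ?_⟩
    have e3 : ((X - ∑ i, (D.ks.symm τ) i • (⟨D.w i, D.om_w i⟩ : LinearMap.ker (D.B D.om)) :
        LinearMap.ker (D.B D.om)) : D.V) = x - ∑ i, (D.ks.symm τ) i • D.w i := by
      rw [AddSubgroupClass.coe_sub, hY]
    rw [e3] at ha
    rw [← ha, sub_add_cancel]

end Pool.CubicTate
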