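import Pool.Agent.Work.MP_eb5f03_co.Interface

set_option autoImplicit false

namespace Pool.CubicTate

theorem q_BLD (h1 : T_KOH) (h2 : T_KOM) (h3 : T_CAS) : T_BLD := by
  intro hfin p _ hp S r hr A H3 H2 _ _ _ X
  obtain ⟨hY1, hY2⟩ := h1 X.k X.coh
  obtain ⟨hO, -⟩ := h2 X.k X.coh
  obtain ⟨f, E⟩ := X.eqs hY1 hY2
  let Z : CubicFourfold S r A H3 H2 :=
    { phi := X.phi
      h := X.h
      phi_h := X.phi_h
      fg := X.fg
      tf := X.tf hY1 hO
      h_prim := X.h_prim hY1 hO
      im := X.im
      h_im := X.h_im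
      im_fixed := X.im_fixed
      im_norm := X.im_norm
      fin := X.fin
      H3_tors := X.H3_tors
      ms := X.ms
      ms_inj := X.ms_inj
      ctk := X.ctk
      ctk_inj := X.ctk_inj
      ctk_fixed := X.ctk_fixed
      f := f
      f_le := E.le
      f_zero := E.zero
      f_unram := E.unram
      f_mem := E.mem
      cases := h3 p S r A H3 H2 X f E
      C := X.C
      C_mem := E.lifts.C_mem
      C_h := X.C_h
      torelli := E.lifts.torelli
      J := X.J
      J_h := X.J_h
      J_spec := X.J_spec
      Line := X.Line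
      lang_weil := X.lang_weil
      ku := X.ku }
  exact hfin p hp S r hr A H3 H2 Z

end Pool.CubicTate
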