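import Pool.Agent.Work.MP_eb5f03_ct.Defs

/-!
# Cubic fourfolds and their varieties of lines: coherent, de Rham and crystalline cohomology

`X` is a smooth cubic hypersurface in the projective space of dimension five over the field `F` with
`p^r` elements, `p ≥ 3`, `Y` its variety of lines, `X̄` and `Ȳ` are over the algebraic closure `k` of
`F`.  The structure `Fourfold` lists the groups attached to `X`, `Y` and to their deformations, and the
published theorems on them which the proof uses, each with its source.  Nothing in it speaks of the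
surjectivity of `CH²(X) → CH²(X̄)^G`, of the integral Tate conjecture over `F` or over `k`, or of the
vanishing of unramified cohomology; and it contains no fact which is known only for `p ≥ 5`.
-/

set_option autoImplicit false

namespace Pool.CubicTate

/-- A long exact sequence of vector spaces `A 0 → B 0 → C 0 → A 1 → …` (that the first map is injective
is not needed). -/
structure Les (k : Type) [Field k] (A B C : ℕ → ModuleCat.{0} k) where
  f : ∀ i, A i →ₗ[k] B i
  g : ∀ i, B i →ₗ[k] C i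
  d : ∀ i, C i →ₗ[k] A (i + 1)
  fg : ∀ i, Function.Exact (f i) (g i)
  gd : ∀ i, Function.Exact (g i) (d i)
  df : ∀ i, Function.Exact (d i) (f (i + 1))

/-- The vector space is zero. -/
def Van {k : Type} [Field k] (M : ModuleCat.{0} k) : Prop := ∀ x : M, x = 0

/-- Coherent cohomology for a smooth cubic fourfold `X ⊂ ℙ = ℙ⁵` over an algebraically closed field
`k` of any characteristic, its variety of lines `Y ⊂ G = G(2,6)`, the universal line `P → Y` and the
bundle `T → X` of the lines in the fibres of the tangent bundle of `X`, with the classes `ζ` (the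
tautological one) and `h`.  Writing `F(x + s v) = F₀ + s F₁ + s² F₂ + s³ F₃`, the variety `P` is the
zero locus, in the divisor `D = {F₂ = 0}` of class `2ζ + 3h` in `T`, of the section `F₃` of
`𝒪_D(3ζ + 3h)`.  Sources: Bott's theorem on `ℙ⁵`; the cohomology of projective bundles and relative
duality; Deligne, SGA 7 XI (Hodge numbers and vanishing theorem for complete intersections in all
characteristics); Altman, Kleiman, Foundations of the theory of Fano schemes (1977): `Y` is smooth of
dimension four, its normal bundle in `G` is `Sym³ U^*`, `U` the tautological bundle. -/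
structure Coherent (k : Type) [Field k] where
  /-- `H^i(X, 𝒪(b))` -/
  OX : ℤ → ℕ → ModuleCat.{0} k
  /-- `H^i(X, Ω¹(b))` -/
  Om1 : ℤ → ℕ → ModuleCat.{0} k
  /-- `H^i(X, Ω²)` -/
  Om2 : ℕ → ModuleCat.{0} k
  /-- `H^i(X, Ω³)` -/
  Om3 : ℕ → ModuleCat.{0} k
  /-- `H^i(X, T_X)` -/
  TX : ℕ → ModuleCat.{0} k
  /-- `H^i(X, Ω³_ℙ(3))` -/
  EX : ℕ → ModuleCat.{0} k
  /-- `H^i(T, 𝒪(aζ + bh))` -/
  HT : ℤ → ℤ → ℕ → ModuleCat.{0} k
  /-- `H^i(D, 𝒪(aζ + bh))` -/
  HD : ℤ → ℤ → ℕ → ModuleCat.{0} k
  /-- `H^i(P, 𝒪(aζ + bh))` -/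
  HP : ℤ → ℤ → ℕ → ModuleCat.{0} k
  /-- `H^i(Y, 𝒪)` -/
  OY : ℕ → ModuleCat.{0} k
  /-- `H^i(Y, Ω¹_Y)` -/
  Y1 : ℕ → ModuleCat.{0} k
  /-- `H^i(Y, Ω¹_G)` -/
  G1 : ℕ → ModuleCat.{0} k
  /-- `H^i` of the conormal bundle of `Y` in `G` -/
  NY : ℕ → ModuleCat.{0} k
  /-- `H⁰(Y, U)` -/
  UY : ModuleCat.{0} k
  OX_mid : ∀ b i, 0 < i → i < 4 → Van (OX b i)
  /-- SGA 7 XI: `H^q(X, Ω^p(-n)) = 0` for `p + q < 4`, `n > 0` -/
  Om1_neg : Van (Om1 (-3) 2)
  Om3_zero : Van (Om3 0)
  Om3_one : Module.finrank k (Om3 1) = 1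
  /-- Bott -/
  EX_one : Van (EX 1)
  /-- the sequence `0 → Ω²_X → Ω³_ℙ(3)|_X → Ω³_X(3) = T_X → 0` -/
  conX : Les k Om2 EX TX
  HT_low : ∀ a b i, a ≤ -4 → i < 3 → Van (HT a b i)
  HT_mid : ∀ a b i, -3 ≤ a → a ≤ -1 → Van (HT a b i)
  HT_zero : ∀ b i, Nonempty (HT 0 b i ≃ₗ[k] OX b i)
  HT_one : ∀ b i, HT 1 b i ≃ₗ[k] Om1 b i
  HT_four : ∀ b i, Nonempty (HT (-4) b (i + 3) ≃ₗ[k] OX (b + 3) i)
  /-- `R³π_*𝒪(-5ζ) = T_X(3h)`, `T_X(-3h) = Ω³_X` -/
  HT_five : ∀ i, Nonempty (HT (-5) (-6) (i + 3) ≃ₗ[k] Om3 i)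
  seqD : ∀ a b a' b', a' = a + 2 → b' = b + 3 → Les k (HT a b) (HT a' b') (HD a' b')
  seqP : ∀ a b a' b', a' = a + 3 → b' = b + 3 → Les k (HD a b) (HD a' b') (HP a' b')
  /-- `P → Y` is a bundle of projective lines -/
  pull : ∀ i, Nonempty (OY i ≃ₗ[k] HP 0 0 i)
  /-- `Ω¹_{P/Y} = 𝒪(ζ)` and the trace -/
  push : HP 1 0 3 ≃ₗ[k] OY 2
  /-- relative duality: the conormal bundle is `(Sym³ U^*)^*`, and the Pluecker class is `ζ + 2h` -/
  conN : Nonempty (NY 1 ≃ₗ[k] HP 1 (-3) 2)
  UU : Nonempty (UY ≃ₗ[k] HP (-1) (-1) 0)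
  conY : Les k NY G1 Y1
  /-- `Ω¹_G = U ⊗ Q^* ⊂ U ⊗ V^*` -/
  G1_sub : ∃ j : G1 0 →ₗ[k] (Fin 6 → UY), Function.Injective j
  /-- the class of the tautological sequence `0 → U → V → Q → 0` in `H¹(Y, Ω¹_G)`; if it is zero then
  `U` is a quotient of the trivial bundle `V` -/
  taut : G1 1
  taut_split : taut = 0 → ∃ s : UY, s ≠ 0

/-- The map `H³(X, Ω¹) → H²(Y, 𝒪)` given by the universal line: pull back to `P`, project to the
relative differentials (this is the restriction of `𝒪(ζ)` from `T` to `P`), trace. -/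
noncomputable def Coherent.phiTop {k : Type} [Field k] (c : Coherent k) : c.Om1 0 3 →ₗ[k] c.OY 2 :=
  c.push.toLinearMap ∘ₗ (c.seqP (-2) (-3) 1 0 (by norm_num) (by norm_num)).g 3 ∘ₗ
    (c.seqD (-1) (-3) 1 0 (by norm_num) (by norm_num)).g 3 ∘ₗ (c.HT_one 0 3).symm.toLinearMap

/-- The map `H³(X, Ω¹) → H²(Y, 𝒪)` is injective. -/
def Coherent.PhiInj {k : Type} [Field k] (c : Coherent k) : Prop := Function.Injective c.phiTop

/-- The map `H³(X, Ω¹) → H²(Y, 𝒪)` is an isomorphism. -/
def Coherent.PhiIso {k : Type} [Field k] (c : Coherent k) : Prop := Function.Bijective c.phiTop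

/-- De Rham and crystalline cohomology of `X̄` and `Ȳ` over an algebraically closed field `k` of
characteristic `p ≥ 3`.  `A` is the Neron-Severi group of `Ȳ`, `h` the Pluecker class. -/
structure DeRham (p : ℕ) {k : Type} [Field k] (c : Coherent k) (A : Type) [AddCommGroup A]
    (h : A) where
  /-- `H⁴_dR(X̄)` with the cup product (Poincare duality) -/
  V : ModuleCat.{0} k
  B : V →ₗ[k] V →ₗ[k] k
  B_symm : ∀ x y, B x y = B y x
  B_nondeg : ∀ x, (∀ y, B x y = 0) → x = 0
  /-- the Gauss-Manin connection of the universal deformation, with coordinates `t_1, …, t_20`: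
  `om` is the value at `0` of a generator `ω` of `F³`, `w i` that of `∇_i ω`, `w2 i j` that of
  `∇_i ∇_j ω` (symmetric in `i`, `j`, as the connection is flat); `th` is the class of the square of the
  hyperplane section.  Griffiths transversality (Katz, Oda 1968); `F³` is orthogonal to `F²`, and `th`
  is horizontal and in `F²` -/
  om : V
  w : Fin 20 → V
  w2 : Fin 20 → Fin 20 → V
  th : V
  om_ne : om ≠ 0
  om_om : B om om = 0
  om_w : ∀ i, B om (w i) = 0
  w_w : ∀ i j, B (w i) (w j) + B om (w2 i j) = 0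
  th_om : B th om = 0
  th_w : ∀ i, B th (w i) = 0
  th_w2 : ∀ i j, B th (w2 i j) = 0
  /-- `F² → H²(X̄, Ω²)`; `F²` is the orthogonal complement of `ω` (Deligne, SGA 7 XI: the Hodge to de
  Rham spectral sequence degenerates) -/
  gr : LinearMap.ker (B om) →ₗ[k] c.Om2 2
  gr_om : gr ⟨om, om_om⟩ = 0
  gr_ker : ∀ x, gr x = 0 → ∃ a : k, (x : V) = a • om
  /-- the Kodaira-Spencer isomorphism: the universal deformation of `X̄` is the formal spectrum of the
  power series in twenty variables over the Witt vectors -/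
  ks : (Fin 20 → k) ≃ₗ[k] c.TX 1
  /-- the contraction with the class of `ω` in `H¹(X̄, Ω³)` is the connecting map of `conX` -/
  gr_w : ∀ i, gr ⟨w i, om_w i⟩ = c.conX.d 1 (ks (Pi.single i 1))
  /-- the map `H²(X̄, Ω²) → H²(X̄, Ω³_ℙ(3)) = H³(ℙ, Ω³) = k` is the cup product with `th` -/
  gysin : c.EX 2 ≃ₗ[k] k
  gysin_eq : ∀ x, gysin (c.conX.f 2 (gr x)) = B th x
  /-- `H²_dR(Ȳ)`, the correspondence `Φ` given by the universal line, the de Rham and the Hodge Chern
  class of line bundles -/
  W : ModuleCat.{0} k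
  Phi : V →ₗ[k] W
  c1 : A →+ W
  cH : A →+ c.Y1 1
  c1_h : c1 h = Phi th
  /-- the Pluecker class is, up to sign, the class of the tautological sequence -/
  cH_h : cH h = c.conY.g 1 c.taut
  /-- Illusie 1979: the kernel of the Chern class of `Pic/p` in de Rham cohomology comes from
  `H⁰(Ω¹)` and `H¹(𝒪)` -/
  pic : Van (c.OY 1) → Van (c.Y1 0) → ∀ a, c1 a = 0 → ∃ b, a = (p : ℤ) • b
  /-- the Cartier operator fixes the logarithmic forms and is inverse Frobenius linear -/
  cartier : Van (c.OY 1) → Van (c.Y1 0) → ∀ a b (x : k), c1 a = x • c1 b → cH b ≠ 0 → x ^ p = x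
  /-- The horizontal transport to `k[t]/(t)³`, with its nilpotent divided powers (`p ≥ 3`), commutes
  with `Φ`, and so do the projections to `H³(X, Ω¹)` and `H²(Y, 𝒪)`; the transport of `x ∈ V`,
  projected to `H³(X, Ω¹)`, is `B x om + ∑ B x (w i) t_i + ½ ∑ B x (w2 i j) t_i t_j` times a
  generator. -/
  transport : c.PhiInj → ∀ x, Phi x = 0 →
    B x om = 0 ∧ (∀ i, B x (w i) = 0) ∧ ∀ i j, B x (w2 i j) = 0

/-- Crystalline cohomology of `X̄` and `Ȳ`. -/
structure Crystalline {p : ℕ} {k : Type} [Field k] {c : Coherent k} {A : Type} [AddCommGroup A]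
    {h : A} (D : DeRham p c A h) where
  /-- crystalline cohomology: `L4` of `X̄` in degree four, `L2` of `Ȳ` in degree two (Berthelot, Ogus
  1978; `L2` has no torsion if `H¹_dR(Ȳ) = 0`) -/
  L4 : Type
  L2 : Type
  [gL4 : AddCommGroup L4]
  [gL2 : AddCommGroup L2]
  r4 : L4 →+ D.V
  r2 : L2 →+ D.W
  r4_ker : ∀ x, r4 x = 0 → ∃ y, x = p • y
  r2_mul : ∀ y, r2 (p • y) = 0
  L2_tors : Van (c.OY 1) → Van (c.Y1 0) → ∀ y : L2, p • y = 0 → y = 0
  PhiL : L4 →+ L2
  PhiL_eq : ∀ x, r2 (PhiL x) = D.Phi (r4 x)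
  c1L : A →+ L2
  c1L_eq : ∀ a, r2 (c1L a) = D.c1 a
  /-- `Φ` is an isomorphism after inverting `p`: Beauville, Donagi 1985, and the comparison of
  crystalline cohomology with the de Rham cohomology of a lifting (Berthelot, Ogus 1978) -/
  PhiL_onto : ∀ y : L2, ∃ (n : ℕ) (x : L4), PhiL x = (p ^ n) • y

attribute [instance] Crystalline.gL4 Crystalline.gL2

/-- The cup product of two classes in `H⁴_dR(X̄)`. -/
def DeRham.cup {p : ℕ} {k : Type} [Field k] {c : Coherent k} {A : Type} [AddCommGroup A] {h : A}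
    (D : DeRham p c A h) (x y : D.V) : k :=
  D.B x y

/-- The conditions of `Equations.crit`: `l i`, `s i` and `q i j`, `i ≠ j`, are the coefficients of `t_i`,
of `t_i²` and of `t_i t_j` in the reduction of an equation, `x` the class. -/
def Crit {p : ℕ} {k : Type} [Field k] {c : Coherent k} {A : Type} [AddCommGroup A] {h : A}
    (D : DeRham p c A h) (x : D.V) (l s : Fin 20 → k) (q : Fin 20 → Fin 20 → k) : Prop :=
  D.cup x D.om = 0 ∧ ∃ u : k, u ≠ 0 ∧ (∀ i, l i = u * D.cup x (D.w i)) ∧
    ((∀ i, D.cup x (D.w i) = 0) → (∀ i, 2 * s i = u * D.cup x (D.w2 i i)) ∧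
      ∀ i j, i ≠ j → q i j = u * D.cup x (D.w2 i j))

section Cubics

variable {p : ℕ} [Fact p.Prime]

/-- The elements of norm at most one of the algebraic closure of `ℚ_p`. -/
def Ball (p : ℕ) [Fact p.Prime] : Subring (Om p) where
  carrier := {x | ‖x‖ ≤ 1}
  mul_mem' {x y} hx hy := by
    have h : ‖x * y‖ ≤ 1 := by
      rw [norm_mul]; exact mul_le_one₀ hx (norm_nonneg _) hy
    exact h
  one_mem' := by
    have h : ‖(1 : Om p)‖ ≤ 1 := by rw [norm_one]
    exact h
  add_mem' {x y} hx hy := (IsUltrametricDist.norm_add_le_max x y).trans (max_le hx hy)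
  zero_mem' := by
    have h : ‖(0 : Om p)‖ ≤ 1 := by rw [norm_zero]; exact zero_le_one
    exact h
  neg_mem' {x} hx := by
    have h : ‖-x‖ ≤ 1 := by rw [norm_neg]; exact hx
    exact h

/-- The zeros of the equations `f a` over finite extensions of `ℚ_p`. -/
structure Lifts (r : ℕ) {A : Type} [AddCommGroup A] (h : A) (phi : A → A)
    (C : (Fin 20 → Om p) → AddSubgroup A) (f : A → (Fin 20 → ℕ) → Om p) : Prop where
  /-- `C t` is the Neron-Severi group of the variety of lines of the deformation `t`, over the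
  algebraic closure: Voisin, Some aspects of the Hodge conjecture, 2007, Theorem 18 (integral Hodge
  conjecture for cubic fourfolds), and Beauville, Donagi 1985 -/
  C_mem : ∀ (K : Fld p) (t : Fin 20 → Om p) (m : ℕ), IsLift r K t m →
    ∀ a, a ∈ C t ↔ Vanishes p (f a) t
  /-- the local Torelli theorem (Voisin 1986; Beauville, Donagi 1985), the implicit function theorem
  over `K` and the injectivity of `NS ⊗ K → H^{1,1}`: if the line bundle `b` extends to all
  deformations over `K`, near `u`, to which the line bundle `a` extends, then `b` is a rational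
  combination of `a` and `h` -/
  torelli : ∀ (a b : A) (K : Fld p) (u : Fin 20 → Om p) (m : ℕ) (ρ : ℝ), IsLift r K u m →
    phi^[m] a = a → Vanishes p (f a) u → 0 < ρ →
    (∀ t : Fin 20 → Om p, IsLift r K t m → (∀ i, ‖t i - u i‖ < ρ) → Vanishes p (f a) t →
      Vanishes p (f b) t) →
    ∃ n x y : ℤ, n ≠ 0 ∧ n • b = x • a + y • h

/-- The properties of the equations `f a`, `a ∈ A`, of a smooth cubic fourfold over the field with
`p^r` elements: over the Witt vectors of the algebraic closure the closed formal subscheme of the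
universal deformation of `X̄` where the line bundle `a` on `Ȳ` extends is given by the equation `f a`
(Deligne, Relevement des surfaces K3 en caracteristique nulle, 1981). -/
structure Equations (r : ℕ) {k : Type} [Field k] (red : Ball p →+* k) {c : Coherent k} {A : Type}
    [AddCommGroup A] {h : A} (D : DeRham p c A h) (phi : A → A)
    (C : (Fin 20 → Om p) → AddSubgroup A) (f : A → (Fin 20 → ℕ) → Om p) : Prop where
  le : ∀ a α, ‖f a α‖ ≤ 1
  zero : ∀ a, ‖f a 0‖ < 1
  /-- the coefficients are in the maximal unramified extension -/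
  unram : ∀ a α, ‖f a α‖ < 1 → ‖f a α‖ ≤ ‖(p : Om p)‖
  mem : ∀ a m, 0 < m → phi^[m] a = a → ∀ K : Fld p, IsFin p K → resDeg p K = r * m →
    ∀ α, f a α ∈ K
  /-- The crystalline criterion for the extension of line bundles to a nilpotent divided power
  thickening, here `k[t]/(t)³`, `p ≥ 3` (Berthelot, Ogus 1978; Deligne 1981; Ogus, Supersingular K3
  crystals, 1979): modulo `p` and `(t)³` the power series `f a` is a unit times the horizontal
  transport of the Chern class of `a`, projected to `H²(Y, 𝒪)`.  If the Chern class is `Φ(x)` and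
  `Φ : H³(X, Ω¹) → H²(Y, 𝒪)` is an isomorphism, this is, up to a unit, the transport of `x` projected
  to `H³(X, Ω¹)`. -/
  crit : c.PhiIso → ∀ a x, D.Phi x = D.c1 a →
    Crit D x (fun i => red ⟨f a (Pi.single i 1), le a _⟩) (fun i => red ⟨f a (Pi.single i 2), le a _⟩)
      (fun i j => red ⟨f a (Pi.single i 1 + Pi.single j 1), le a _⟩)
  lifts : Lifts r h phi C f

/-- A smooth cubic fourfold `X` over the field `F` with `p^r` elements, `p ≥ 3`, and its variety of
lines `Y`.  `A` is the Neron-Severi group of `Ȳ`, `H3` the sum of the groups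
`H³_nr(F(X)/F, ℚ_l/ℤ_l(2))`, `l ≠ p`, and `H2` the group `H³_nr(F(X)/F, ℤ/2)`; `Φ` is the
correspondence from codimension two cycles on `X` to divisors on `Y` given by the universal line. -/
structure Fourfold (S : ProperSchemes p) (r : ℕ) (A H3 H2 : Type) [AddCommGroup A]
    [AddCommGroup H3] [AddCommGroup H2] where
  /-- the residue field of the algebraic closure of `ℚ_p`, an algebraic closure of `F`, and the
  reduction -/
  k : Type
  [field : Field k]
  red : Ball p →+* k
  red_zero : ∀ x : Ball p, red x = 0 ↔ ‖(x : Om p)‖ < 1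
  coh : Coherent k
  /-- the Pluecker class -/
  h : A
  dR : DeRham p coh A h
  cr : Crystalline dR
  /-- the Frobenius automorphism of `Ȳ` over `F` -/
  phi : A ≃+ A
  phi_h : phi h = h
  fg : Module.Finite ℤ A
  /-- the `l`-adic cohomology of `Ȳ` has no torsion for `l ≠ p` (Beauville, Donagi 1985), and
  `Pic(Ȳ)` has no `p`-torsion if `Ȳ` has no global `1`-forms -/
  tf : Van (coh.OY 1) → Van (coh.Y1 0) → ∀ (n : ℤ) (a : A), n ≠ 0 → n • a = 0 → a = 0
  /-- `h` is primitive, as its fourth power is `108` -/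
  h_prim : Van (coh.OY 1) → Van (coh.Y1 0) →
    ∀ (n m : ℤ) (a : A), n ≠ 0 → n • a = m • h → ∃ j : ℤ, a = j • h
  /-- `im m` is the image under `Φ` of `CH²` of the base change of `X` to the extension of degree
  `m` -/
  im : ℕ → AddSubgroup A
  h_im : h ∈ im 1
  im_fixed : ∀ m, 0 < m → ∀ a ∈ im m, phi^[m] a = a
  im_norm : ∀ m, 0 < m → ∀ a ∈ im m, ∑ i ∈ Finset.range m, phi^[i] a ∈ im 1
  fin : ∀ a, ∃ m, 0 < m ∧ phi^[m] a = a
  H3_tors : ∀ x : H3, ∃ n : ℕ, ¬ p ∣ n ∧ n • x = 0
  /-- Merkurjev, Suslin 1982 -/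
  ms : H2 →+ H3
  ms_inj : Function.Injective ms
  /-- Colliot-Thelene, Kahn, Cycles de codimension 2 et H³ non ramifie pour les varietes sur les corps
  finis (2013), Theorem 2.2: as a multiple of the diagonal of `X` is decomposed, the `l`-primary part
  of `H3` is the torsion of the cokernel of `CH²(X) ⊗ ℤ_l → H⁴(X̄, ℤ_l(2))^G`; by `Φ` the last group is
  `H²(Ȳ, ℤ_l(1))^G` (Beauville, Donagi 1985), in which `A^G ⊗ ℤ_l` is saturated -/
  ctk : H3 →+ A ⧸ im 1
  ctk_inj : Function.Injective ctk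
  ctk_fixed : ∀ x, ∃ a, phi a = a ∧ ctk x = QuotientAddGroup.mk a
  /-- the image under `Φ` and specialisation of `CH²` of the geometric generic fibre of the
  deformation `t` -/
  C : (Fin 20 → Om p) → AddSubgroup A
  C_h : ∀ t, h ∈ C t
  /-- the equations exist if `H¹(Y, 𝒪) = 0` and `H²(Y, 𝒪)` has dimension one -/
  eqs : Van (coh.OY 1) → Module.finrank k (coh.OY 2) = 1 → ∃ f, Equations r red dR phi C f
  /-- `J t L` is the image of `CH²(X_L)` in `A`, `X` the deformation `t`; Fulton, Intersection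
  theory, 20.3 (specialisation) -/
  J : (Fin 20 → Om p) → Fld p → AddSubgroup A
  J_h : ∀ t L, h ∈ J t L
  J_spec : ∀ (K : Fld p) (t : Fin 20 → Om p) (m : ℕ), IsLift r K t m → ∀ (L : Fld p),
    IsFin p L → K ≤ L → ∀ n, 0 < n → resDeg p L = r * n → J t L ≤ im n
  /-- `X` contains a line over the extension of degree `m` which is in no plane of `X̄` -/
  Line : ℕ → Prop
  /-- Lang, Weil 1954, and Altman, Kleiman 1977 (the variety of lines is geometrically irreducible) -/
  lang_weil : ∃ m₀, ∀ m, m₀ ≤ m → Line m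
  ku : ∀ (K : Fld p) (t : Fin 20 → Om p) (m : ℕ), IsLift r K t m → Line m →
    Nonempty (Kuznetsov S K h (phi^[m]) (C t) (J t))

attribute [instance] Fourfold.field

end Cubics

end Pool.CubicTate
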