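import Pool.Agent.Work.MP_eb5f03_co.Defs
import Pool.Agent.Work.MP_eb5f03_ct.Interface

/-!
# Blocks of the second layer

The block `X` is a file `Pool/Agent/Work/MP_eb5f03_co/B_X.lean` which imports this file and contains, in
the namespace `Pool.CubicTate`, `theorem q_X (h1 : T_Y) (h2 : T_Z) … : T_X`, where `Y`, `Z`, … are the
blocks which the docstring of `X` uses, in the order in which they are listed (no hypothesis if it uses
none).  `Van M` unfolds to `∀ x : M, x = 0`.  `c.seqD a b a' b' h h'` is the long exact sequence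
`HT a b → HT a' b' → HD a' b'`, and `c.seqP a b a' b' h h'` is `HD a b → HD a' b' → HP a' b'`.
-/

set_option autoImplicit false

namespace Pool.CubicTate

/-! ## Coherent cohomology -/

/-- KOH (120 lines).  `H¹(Y, 𝒪) = 0` and `H²(Y, 𝒪)` has dimension one.
PROOF.  All by exactness (`Function.Exact`: `g y = 0 ↔ ∃ x, f x = y`).
`seqD (-2) (-3) 0 0`: `HT (-2) (-3) = 0` (`HT_mid`), so `HD 0 0 i` is `0` if `HT 0 0 i = 0`; by
`HT_zero`, `OX_mid` this is so for `i = 1, 2, 3`.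
`seqD (-5) (-6) (-3) (-3)`: `HT (-3) (-3) = 0`, so `d i : HD (-3) (-3) i → HT (-5) (-6) (i+1)` is
bijective; so `HD (-3) (-3) 1 = 0` (`HT_low`), `HD (-3) (-3) 2 ≅ HT (-5) (-6) 3 ≅ Om3 0 = 0`
(`HT_five 0`, `Om3_zero`), `HD (-3) (-3) 3 ≅ HT (-5) (-6) 4 ≅ Om3 1` (`HT_five 1`), of dimension one.
`seqP (-3) (-3) 0 0`: `HP 0 0 1` is between `HD 0 0 1 = 0` and `HD (-3) (-3) 2 = 0`, so `0`;
`d 2 : HP 0 0 2 → HD (-3) (-3) 3` is injective (`HD 0 0 2 = 0`) and surjective (`HD 0 0 3 = 0`), so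
`HP 0 0 2` has dimension one (`LinearEquiv.ofBijective`, `LinearEquiv.finrank_eq`).  Then `pull`. -/
def T_KOH : Prop := ∀ (k : Type) [Field k] (c : Coherent k),
  Van (c.OY 1) ∧ Module.finrank k (c.OY 2) = 1

/-- KPT (80 lines).  `Φ : H³(X, Ω¹) → H²(Y, 𝒪)` is an isomorphism.
PROOF.  `phiTop` is `push ∘ g_P ∘ g_D ∘ (HT_one 0 3)⁻¹`; `push` and `HT_one` are equivalences.
`g_D = (seqD (-1) (-3) 1 0).g 3` is bijective since `HT (-1) (-3) i = 0` for all `i` (`HT_mid`): injective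
by `fg`, surjective by `gd`.  `g_P = (seqP (-2) (-3) 1 0).g 3` is bijective since `HD (-2) (-3) i = 0` for
`i = 3, 4`: by `seqD (-4) (-6) (-2) (-3)`, `HT (-2) (-3) i = 0` and `HT (-4) (-6) (i+1) ≅ OX (-3) (i-2) = 0`
(`HT_four (-6) 1`, `HT_four (-6) 2`, `OX_mid`; `-6 + 3 = -3` is not needed, `OX_mid` holds for every
`b`). -/
def T_KPT : Prop := ∀ (k : Type) [Field k] (c : Coherent k), Function.Bijective c.phiTop

/-- KOM (120 lines).  `H⁰(Y, Ω¹) = 0` and the class of the Pluecker line bundle is not zero.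
PROOF.  `HP 1 (-3) 2 = 0`: `seqP (-2) (-6) 1 (-3)`: `HD 1 (-3) 2 = 0` by `seqD (-1) (-6) 1 (-3)` with
`HT 1 (-3) 2 ≅ Om1 (-3) 2 = 0` (`HT_one`, `Om1_neg`) and `HT (-1) (-6) 3 = 0`; `HD (-2) (-6) 3 = 0` by
`seqD (-4) (-9) (-2) (-6)` with `HT (-2) (-6) 3 = 0` and `HT (-4) (-9) 4 ≅ OX (-9+3) 1 = 0`.  So
`NY 1 = 0` (`conN`).
`HP (-1) (-1) 0 = 0`: `seqP (-4) (-4) (-1) (-1)`: `HD (-1) (-1) 0 = 0` by `seqD (-3) (-4) (-1) (-1)` with
`HT (-1) (-1) 0 = 0`, `HT (-3) (-4) 1 = 0`; `HD (-4) (-4) 1 = 0` by `seqD (-6) (-7) (-4) (-4)` with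
`HT (-4) (-4) 1 = 0`, `HT (-6) (-7) 2 = 0` (`HT_low`).  So `UY = 0` (`UU`), `G1 0 = 0` (`G1_sub`).
`conY`: `x ∈ Y1 0` has `d 0 x = 0` in `NY 1`, so `x = g 0 y` with `y ∈ G1 0`, `x = 0`.  If
`g 1 taut = 0` then `taut = f 1 z` with `z ∈ NY 1`, so `taut = 0`, so `UY ≠ 0` (`taut_split`),
contradiction. -/
def T_KOM : Prop := ∀ (k : Type) [Field k] (c : Coherent k),
  Van (c.Y1 0) ∧ c.conY.g 1 c.taut ≠ 0

/-! ## The infinitesimal Torelli theorem and the quadratic form -/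

/-- TOR (100 lines).  The classes `w i` are independent modulo `ω` and, with `ω`, generate the
orthogonal complement of `ω` and `th`.
PROOF.  For `s : Fin 20 → k` put `y = ∑ s i • w i`, in `ker (B om)` by `om_w`.  `gr y =
∑ s i • conX.d 1 (ks (Pi.single i 1)) = conX.d 1 (ks s)` (`gr_w`, linearity,
`s = ∑ s i • Pi.single i 1`; work in the subtype with `∑ s i • ⟨w i, om_w i⟩`).  (1) If `y = a • om` then
`gr y = a • gr ⟨om, _⟩ = 0` (`gr_om`), so `conX.d 1 (ks s) = 0`, by exactness (`gd 1`)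
`ks s = conX.g 1 z` with `z ∈ EX 1`, `z = 0` (`EX_one`), `ks s = 0`, `s = 0`.  (2) Let `B om x = 0`,
`B th x = 0`.  `gysin (conX.f 2 (gr x)) = 0` (`gysin_eq`), so `conX.f 2 (gr x) = 0`, so
`gr x = conX.d 1 τ` (`df 1`), `τ = ks s`; with `y` as above `gr (x - y) = 0`, `x - y = a • om`
(`gr_ker`). -/
def T_TOR : Prop := ∀ (p : ℕ) (k : Type) [Field k] (c : Coherent k) (A : Type) [AddCommGroup A] (h : A)
  (D : DeRham p c A h),
  (∀ (s : Fin 20 → k) (a : k), ∑ i, s i • D.w i = a • D.om → s = 0) ∧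
  ∀ x, D.B D.om x = 0 → D.B D.th x = 0 →
    ∃ (a : k) (s : Fin 20 → k), x = a • D.om + ∑ i, s i • D.w i

/-- ORT (80 lines; uses TOR).  The orthogonal complement of `ω` and the `w i` is spanned by `ω`, `th`.
PROOF.  The linear form `B x` vanishes on the intersection of the kernels of `B om` and `B th`: such a `y`
is `a • om + ∑ s i • w i` by TOR, and `B x om = 0`, `B x (w i) = 0`.  So `B x = a • B om + b • B th`
(`mem_span_of_iInf_ker_le_ker` with `ι = Fin 2`, `Submodule.mem_span_range_iff_exists_fun` or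
`Submodule.mem_span_pair`), and `x = a • om + b • th` (`B_nondeg`). -/
def T_ORT : Prop := ∀ (p : ℕ) (k : Type) [Field k] (c : Coherent k) (A : Type) [AddCommGroup A] (h : A)
  (D : DeRham p c A h) (x : D.V), D.B x D.om = 0 → (∀ i, D.B x (D.w i) = 0) →
    ∃ a b : k, x = a • D.om + b • D.th

/-- MIN (120 lines, matrices only).  A matrix of order twenty whose kernel has dimension at most one has
a nonzero minor of order nineteen.
PROOF.  If `det M ≠ 0`: expand along the first row (`Matrix.det_succ_row_zero`), some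
`det (M.submatrix Fin.succ j.succAbove) ≠ 0`, and `Fin.succ = (0 : Fin 20).succAbove`.  If `det M = 0`
there are `s ≠ 0` with `M s = 0` and `v ≠ 0` with `v M = 0` (`Matrix.exists_mulVec_eq_zero_iff`,
`Matrix.exists_vecMul_eq_zero_iff`); choose `j`, `i` with `s_j ≠ 0`, `v_i ≠ 0`.  If the minor `(i, j)` is
`0` there is `u ≠ 0` in `k^19` killed by the submatrix; let `u'` be `u` with a zero inserted at `j`
(`Fin.insertNth j 0 u`, `Fin.sum_univ_succAbove`), `u' ≠ 0`.  `(M u')_l = 0` for `l ≠ i`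
(`l = i.succAbove l'`), and `0 = v M u' = v_i (M u')_i`, so `M u' = 0`.  By hypothesis
`b' • s = b • u'` with `(b, b') ≠ (0, 0)`; at `j`: `b' s_j = 0`, `b' = 0`, so `b • u' = 0`, `b ≠ 0`,
`u' = 0`, contradiction. -/
def T_MIN : Prop := ∀ (k : Type) [Field k] (M : Matrix (Fin 20) (Fin 20) k),
  (∀ s u : Fin 20 → k, M.mulVec s = 0 → M.mulVec u = 0 →
    ∃ b b' : k, (b ≠ 0 ∨ b' ≠ 0) ∧ b' • s = b • u) →
  ∃ i j : Fin 20, (M.submatrix i.succAbove j.succAbove).det ≠ 0

/-- RNK (80 lines; uses TOR, ORT, MIN).  The matrix of the products of the `w i` has rank at least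
nineteen.
PROOF.  MIN for `M i j = B (w i) (w j)`.  Let `M s = 0`, `x = ∑ s j • w j`: `B x (w i) = 0` (`B_symm`),
`B x om = 0` (`om_w`, `B_symm`), so `x = a • om + b • th` (ORT); the same for `u`: `x' = a' • om + b' • th`.
If `b = b' = 0` then `s = 0` by TOR (1) and `1 • s = 0 • u`.  Otherwise
`∑ (b' s_j - b u_j) • w j = (b' a - b a') • om`, so `b' • s = b • u` by TOR (1). -/
def T_RNK : Prop := ∀ (p : ℕ) (k : Type) [Field k] (c : Coherent k) (A : Type) [AddCommGroup A] (h : A)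
  (D : DeRham p c A h), ∃ i j : Fin 20,
    ((Matrix.of fun i j => D.B (D.w i) (D.w j)).submatrix i.succAbove j.succAbove).det ≠ 0

/-! ## The classes of line bundles -/

/-- INJ (100 lines; uses KOH, KPT, KOM, ORT, RNK).  `Φ` is injective on de Rham cohomology, and
`c1 a = x • c1 h` only for `x` in the prime field and `a ∈ p A + ℤ h`.
PROOF.  (1) Let `Phi x = 0`.  `transport` (KPT): `B x om = 0`, `B x (w i) = 0`, `B x (w2 i j) = 0`; ORT:
`x = a • om + b • th`.  `0 = B x (w2 i j) = a B om (w2 i j) = - a B (w i) (w j)` (`th_w2`, `w_w`).  Some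
`B (w i) (w j) ≠ 0` (otherwise the determinants in RNK are `0`: the submatrix is zero,
`Matrix.det_zero`), so `a = 0`.  `0 = Phi x = b • c1 h` (`c1_h`).  If `b ≠ 0` then `c1 h = 0`, so
`h = p • b'` (`pic`, KOH, KOM), `cH h = p • cH b' = (p : k) • cH b' = 0` (`map_zsmul`), against `cH_h` and
KOM.  So `x = 0`.
(2) `cH h ≠ 0` (`cH_h`, KOM).  If `c1 a = x • c1 h` then `x ^ p = x` (`cartier`), so `x` is the image of
an integer `m` (the `p` images of `0, …, p-1` are distinct roots of `X^p - X`, so all of them; `CharP k p`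
from `(p : k) = 0`).  `c1 (a - m • h) = 0`, so `a - m • h = p • b` (`pic`). -/
def T_INJ : Prop := ∀ (p : ℕ) [Fact p.Prime] (k : Type) [Field k], (p : k) = 0 → ∀ (c : Coherent k)
  (A : Type) [AddCommGroup A] (h : A) (D : DeRham p c A h), Function.Injective D.Phi ∧
  ∀ (a : A) (x : k), D.c1 a = x • D.c1 h → ∃ (b : A) (m : ℤ), a = (p : ℤ) • b + m • h

/-- LAT (80 lines; uses KOH, KOM).  Every Chern class is in the image of `Φ`.
PROOF.  `y = c1L a`, `PhiL x = p^n • y` (`PhiL_onto`).  Induction on `n`: some `x'` has `PhiL x' = y`.  For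
`n + 1`: `Phi (r4 x) = r2 (PhiL x) = r2 (p • (p^n • y)) = 0` (`r2_mul`), so `r4 x = 0`, `x = p • x₁`
(`r4_ker`), `p • PhiL x₁ = p • (p^n • y)`, so `PhiL x₁ = p^n • y` (`L2_tors` for the difference, KOH,
KOM).  Then `Phi (r4 x') = r2 y = c1 a` (`c1L_eq`). -/
def T_LAT : Prop := ∀ (p : ℕ) (k : Type) [Field k] (c : Coherent k)
  (A : Type) [AddCommGroup A] (h : A) (D : DeRham p c A h) (_ : Crystalline D),
  Function.Injective D.Phi → ∀ a : A, ∃ x, D.Phi x = D.c1 a

/-- HES (120 lines).  A minor whose reduction is not zero is a unit.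
PROOF.  Let `H' : Matrix (Fin 20) (Fin 20) (Ball p)` be `hess p g` with its entries in `Ball p` (`2` and the
coefficients are in it).  `red` of the entries of `H'` is `N` (`map_mul`, `map_ofNat`, `Pi.single i 1 +
Pi.single j 1` for `i ≠ j`), so `red (det (H'.submatrix …)) = det (N.submatrix …) ≠ 0`
(`RingHom.map_det`, `RingHom.mapMatrix_apply`), and `minor p g i j` is the image in `Om p` of
`det (H'.submatrix …)` (`RingHom.map_det` for `(Ball p).subtype`).  It has norm `≤ 1` (it is in `Ball p`) and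
not `< 1` (`red_zero`). -/
def T_HES : Prop := ∀ (p : ℕ) [Fact p.Prime] (k : Type) [Field k] (red : Ball p →+* k),
  (∀ x : Ball p, red x = 0 ↔ ‖(x : Om p)‖ < 1) → ∀ (g : (Fin 20 → ℕ) → Om p)
  (hg : ∀ α, ‖g α‖ ≤ 1) (N : Matrix (Fin 20) (Fin 20) k),
  (∀ i, 2 * red ⟨g (Pi.single i 2), hg _⟩ = N i i) →
  (∀ i j, i ≠ j → red ⟨g (Pi.single i 1 + Pi.single j 1), hg _⟩ = N i j) →
  ∀ i j : Fin 20, (N.submatrix i.succAbove j.succAbove).det ≠ 0 → ‖minor p g i j‖ = 1

/-- CAS (150 lines; uses KPT, ORT, RNK, INJ, LAT, HES).  The three cases for the equation of a class.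
PROOF.  `(p : k) = 0`: `(p : Ball p)` has norm `‖p‖ < 1`, so `red p = 0` (`map_natCast`).  INJ: `Phi` is
injective; LAT: `x` with `Phi x = c1 a`; `crit` (KPT): `B x om = 0`, `u ≠ 0`,
`red (f a e_i) = u * B x (w i)`.  If some `B x (w i) ≠ 0` then `red (f a e_i) ≠ 0`, so not `‖f a e_i‖ < 1`
(`red_zero`), so `= 1` (`le`): first case.  Otherwise all `‖f a e_i‖ < 1`.  ORT: `x = α • om + β • th`,
`B x (w2 i j) = α B om (w2 i j) = - α B (w i) (w j)` (`th_w2`, `w_w`).  If `α ≠ 0`: HES with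
`N i j = u * B x (w2 i j) = (-(u α)) * B (w i) (w j)`, `N = (-(u α)) • M`, the minor of `N` is
`(-(u α))^19` times the one of RNK (`Matrix.submatrix_smul`, `Matrix.det_smul`): second case.  If
`α = 0`: `c1 a = Phi (β • th) = β • c1 h` (`c1_h`), INJ (2): third case. -/
def T_CAS : Prop := ∀ (p : ℕ) [Fact p.Prime] (S : ProperSchemes p) (r : ℕ)
  (A H3 H2 : Type) [AddCommGroup A] [AddCommGroup H3] [AddCommGroup H2]
  (X : Fourfold S r A H3 H2) (f : A → (Fin 20 → ℕ) → Om p),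
  Equations r X.red X.dR X.phi X.C f → ∀ a : A,
  (∃ i, ‖f a (Pi.single i 1)‖ = 1) ∨
    ((∀ i, ‖f a (Pi.single i 1)‖ < 1) ∧ ∃ i j, ‖minor p (f a) i j‖ = 1) ∨
    ∃ (b : A) (m : ℤ), a = (p : ℤ) • b + m • X.h

/-- BLD (60 lines; uses KOH, KOM, CAS).  The theorem.
PROOF.  `f` with its properties from `eqs` (KOH).  The structure `CubicFourfold S r A H3 H2` with the fields
of `X`, `tf` and `h_prim` applied to KOH and KOM, `f`, the fields of `Equations`, and `cases` from CAS.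
Apply `S_FIN`. -/
def T_BLD : Prop := S_FIN → ∀ (p : ℕ) [Fact p.Prime], p ≠ 2 → ∀ (S : ProperSchemes p) (r : ℕ),
  0 < r → ∀ (A H3 H2 : Type) [AddCommGroup A] [AddCommGroup H3] [AddCommGroup H2]
  (X : Fourfold S r A H3 H2),
  (∀ a, X.phi a = a → ∃ k : ℕ, (p ^ k) • a ∈ X.im 1) ∧ (∀ x : H3, x = 0) ∧ ∀ x : H2, x = 0

end Pool.CubicTate
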